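import Pool.Agent.ZL.Ud
import Pool.Agent.ZU.Cho
import Pool.Agent.ZU.Ctb

/-! # ZL: the operations of ZU are uniformly definable

(library ZL on top of ZU; no sorry in this file)

For every rule `df_..`, `dfn_..` of `ZU` there is a rule `uf_..`, `ud_..` (all usable by `simp`). -/

universe v

namespace ZL

open STP STP.Fml ZU

/-- a uniformly definable predicate as a function of one variable, the others fixed -/
theorem ud_wk1 {R : ∀ m : Mdl.{v}, m.N → (ℕ → m.N) → Prop}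
    (h : UD fun m v => R m (v 0) fun i => v (i + 1)) :
    UD fun m v => R m (v 0) fun i => v (i + 2) :=
  (ud_ren (fun i => match i with | 0 => 0 | n + 1 => n + 2) h).congr fun _ _ => Iff.rfl

theorem ud_wk2 {R : ∀ m : Mdl.{v}, m.N → (ℕ → m.N) → Prop}
    (h : UD fun m v => R m (v 0) fun i => v (i + 1)) :
    UD fun m v => R m (v 0) fun i => v (i + 3) :=
  (ud_ren (fun i => match i with | 0 => 0 | n + 1 => n + 3) h).congr fun _ _ => Iff.rfl

theorem uf_wk1 {F : ∀ m : Mdl.{v}, m.N → (ℕ → m.N) → m.N}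
    (h : UF fun m v => F m (v 0) fun i => v (i + 1)) :
    UF fun m v => F m (v 0) fun i => v (i + 2) :=
  (uf_ren (fun i => match i with | 0 => 0 | n + 1 => n + 2) h).congr fun _ _ => rfl

theorem uf_wk2 {F : ∀ m : Mdl.{v}, m.N → (ℕ → m.N) → m.N}
    (h : UF fun m v => F m (v 0) fun i => v (i + 1)) :
    UF fun m v => F m (v 0) fun i => v (i + 3) :=
  (uf_ren (fun i => match i with | 0 => 0 | n + 1 => n + 3) h).congr fun _ _ => rfl

@[simp] theorem uf_em : UF.{v} fun m _ => (∅ : m.N) :=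
  (ud_all (R := fun m z v => ¬ z ∈ v 0) (ud_not (ud_mem (uf_var 0) (uf_var 1)))).congr
    fun m v => ⟨fun h z => by rw [h]; exact not_mem_em z, fun h => eq_em h⟩

@[simp] theorem uf_the {R : ∀ m : Mdl.{v}, m.N → (ℕ → m.N) → Prop}
    (h : UD fun m v => R m (v 0) fun i => v (i + 1)) : UF fun m v => the fun z => R m z v := by
  have h1 : UD fun m v => ∃ z, R m z (fun i => v (i + 1)) ∧
      ∀ y, R m y (fun i => v (i + 1)) → y = z := by
    refine ud_ex (ud_and ?_ (ud_all (ud_imp ?_ (ud_eq (uf_var 0) (uf_var 1)))))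
    · exact ud_wk1 h
    · exact ud_wk2 h
  refine (ud_or (ud_and h1 h) (ud_and (ud_not h1) (ud_eq (uf_var 0) uf_em))).congr
    fun m v => ?_
  constructor
  · intro hv
    by_cases hc : ∃! z, R m z fun i => v (i + 1)
    · exact Or.inl ⟨hc, hv ▸ the_spec hc⟩
    · exact Or.inr ⟨hc, hv.trans (the_none hc)⟩
  · rintro (⟨⟨z, h2, h3⟩, h4⟩ | ⟨h2, h3⟩)
    · exact (the_eq (P := fun z => R m z fun i => v (i + 1)) h4
        fun y hy => (h3 y hy).trans (h3 _ h4).symm).symm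
    · exact h3.trans (the_none h2).symm

@[simp] theorem uf_ife {P : ∀ m : Mdl.{v}, (ℕ → m.N) → Prop} {a b : ∀ m : Mdl.{v}, (ℕ → m.N) → m.N}
    (hP : UD P) (ha : UF a) (hb : UF b) : UF fun m v => ife (P m v) (a m v) (b m v) := by
  refine (ud_or (ud_and hP.wk ha) (ud_and (ud_not hP.wk) hb)).congr fun m v => ?_
  by_cases h : P m fun i => v (i + 1)
  · simp only [ife_pos h]
    tauto
  · simp only [ife_neg h]
    tauto

@[simp] theorem uf_sep {x : ∀ m : Mdl.{v}, (ℕ → m.N) → m.N} {R : ∀ m : Mdl.{v}, m.N → (ℕ → m.N) → Prop}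
    (hx : UF x) (h : UD fun m v => R m (v 0) fun i => v (i + 1)) :
    UF fun m v => sep (x m v) fun z => R m z v := by
  refine uf_the (R := fun m y v => ∀ z, z ∈ y ↔ z ∈ x m v ∧ R m z v) (ud_all (ud_iff
    (ud_mem (uf_var 0) (uf_var 1)) (ud_and (ud_mem (uf_var 0) hx.wk.wk) ?_)))
  exact ud_wk1 h

@[simp] theorem uf_img {x : ∀ m : Mdl.{v}, (ℕ → m.N) → m.N} {F : ∀ m : Mdl.{v}, m.N → (ℕ → m.N) → m.N}
    (hx : UF x) (h : UF fun m v => F m (v 0) fun i => v (i + 1)) :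
    UF fun m v => img (x m v) fun z => F m z v := by
  refine uf_the (R := fun m y v => ∀ w, w ∈ y ↔ ∃ z, z ∈ x m v ∧ w = F m z v) (ud_all (ud_iff
    (ud_mem (uf_var 0) (uf_var 1)) (ud_ex (ud_and (ud_mem (uf_var 0) hx.wk.wk.wk)
      (ud_eq (uf_var 1) ?_)))))
  exact uf_wk2 h

@[simp] theorem uf_up {s t : ∀ m : Mdl.{v}, (ℕ → m.N) → m.N} (hs : UF s) (ht : UF t) :
    UF fun m v => up (s m v) (t m v) :=
  uf2 (F := fun m => up (N := m.N)) (by unfold up; simp (maxDischargeDepth := 99)) hs ht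

@[simp] theorem uf_sg {s : ∀ m : Mdl.{v}, (ℕ → m.N) → m.N} (hs : UF s) :
    UF fun m v => sg (s m v) := uf_up hs hs

@[simp] theorem uf_uni {s : ∀ m : Mdl.{v}, (ℕ → m.N) → m.N} (hs : UF s) :
    UF fun m v => uni (s m v) :=
  uf1 (F := fun m => uni (N := m.N)) (by unfold uni; simp (maxDischargeDepth := 99)) hs

@[simp] theorem uf_pw {s : ∀ m : Mdl.{v}, (ℕ → m.N) → m.N} (hs : UF s) :
    UF fun m v => pw (s m v) :=
  uf1 (F := fun m => pw (N := m.N)) (by unfold pw; simp (maxDischargeDepth := 99)) hs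

@[simp] theorem uf_cup {s t : ∀ m : Mdl.{v}, (ℕ → m.N) → m.N} (hs : UF s) (ht : UF t) :
    UF fun m v => cup (s m v) (t m v) := uf_uni (uf_up hs ht)

@[simp] theorem uf_cap {s t : ∀ m : Mdl.{v}, (ℕ → m.N) → m.N} (hs : UF s) (ht : UF t) :
    UF fun m v => cap (s m v) (t m v) :=
  uf2 (F := fun m => cap (N := m.N)) (by unfold cap; simp (maxDischargeDepth := 99)) hs ht

@[simp] theorem uf_dif {s t : ∀ m : Mdl.{v}, (ℕ → m.N) → m.N} (hs : UF s) (ht : UF t) :
    UF fun m v => dif (s m v) (t m v) :=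
  uf2 (F := fun m => dif (N := m.N)) (by unfold dif; simp (maxDischargeDepth := 99)) hs ht

@[simp] theorem uf_bU {x : ∀ m : Mdl.{v}, (ℕ → m.N) → m.N} {F : ∀ m : Mdl.{v}, m.N → (ℕ → m.N) → m.N}
    (hx : UF x) (h : UF fun m v => F m (v 0) fun i => v (i + 1)) :
    UF fun m v => bU (x m v) fun z => F m z v := uf_uni (uf_img hx h)

@[simp] theorem uf_op {s t : ∀ m : Mdl.{v}, (ℕ → m.N) → m.N} (hs : UF s) (ht : UF t) :
    UF fun m v => op (s m v) (t m v) := uf_up (uf_up hs hs) (uf_up hs ht)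

@[simp] theorem uf_fst {s : ∀ m : Mdl.{v}, (ℕ → m.N) → m.N} (hs : UF s) :
    UF fun m v => fst (s m v) :=
  uf1 (F := fun m => fst (N := m.N)) (by unfold fst; simp (maxDischargeDepth := 99)) hs

@[simp] theorem uf_snd {s : ∀ m : Mdl.{v}, (ℕ → m.N) → m.N} (hs : UF s) :
    UF fun m v => snd (s m v) :=
  uf1 (F := fun m => snd (N := m.N)) (by unfold snd; simp (maxDischargeDepth := 99)) hs

@[simp] theorem uf_prd {s t : ∀ m : Mdl.{v}, (ℕ → m.N) → m.N} (hs : UF s) (ht : UF t) :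
    UF fun m v => prd (s m v) (t m v) :=
  uf2 (F := fun m => prd (N := m.N)) (by unfold prd; simp (maxDischargeDepth := 99)) hs ht

@[simp] theorem uf_dm {s : ∀ m : Mdl.{v}, (ℕ → m.N) → m.N} (hs : UF s) :
    UF fun m v => dm (s m v) :=
  uf1 (F := fun m => dm (N := m.N)) (by unfold dm; simp (maxDischargeDepth := 99)) hs

@[simp] theorem uf_rg {s : ∀ m : Mdl.{v}, (ℕ → m.N) → m.N} (hs : UF s) :
    UF fun m v => rg (s m v) :=
  uf1 (F := fun m => rg (N := m.N)) (by unfold rg; simp (maxDischargeDepth := 99)) hs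

@[simp] theorem uf_ap {s t : ∀ m : Mdl.{v}, (ℕ → m.N) → m.N} (hs : UF s) (ht : UF t) :
    UF fun m v => ap (s m v) (t m v) :=
  uf2 (F := fun m => ap (N := m.N)) (by unfold ap; simp (maxDischargeDepth := 99)) hs ht

@[simp] theorem uf_lam {x : ∀ m : Mdl.{v}, (ℕ → m.N) → m.N} {F : ∀ m : Mdl.{v}, m.N → (ℕ → m.N) → m.N}
    (hx : UF x) (h : UF fun m v => F m (v 0) fun i => v (i + 1)) :
    UF fun m v => lam (x m v) fun z => F m z v := uf_img hx (uf_op (uf_var 0) h)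

@[simp] theorem ud_isF {s t : ∀ m : Mdl.{v}, (ℕ → m.N) → m.N} (hs : UF s) (ht : UF t) :
    UD fun m v => IsF (s m v) (t m v) :=
  ud2 (P := fun m => IsF (N := m.N)) (by unfold IsF; simp (maxDischargeDepth := 99)) hs ht

@[simp] theorem uf_fs {s t : ∀ m : Mdl.{v}, (ℕ → m.N) → m.N} (hs : UF s) (ht : UF t) :
    UF fun m v => fs (s m v) (t m v) :=
  uf2 (F := fun m => fs (N := m.N)) (by unfold fs; simp (maxDischargeDepth := 99)) hs ht

@[simp] theorem uf_res {s t : ∀ m : Mdl.{v}, (ℕ → m.N) → m.N} (hs : UF s) (ht : UF t) :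
    UF fun m v => res (s m v) (t m v) :=
  uf2 (F := fun m => res (N := m.N)) (by unfold res; simp (maxDischargeDepth := 99)) hs ht

/-! ### Recursion -/

@[simp] theorem ud_cl {pr : ∀ m : Mdl.{v}, m.N → (ℕ → m.N) → m.N}
    {t : ∀ m : Mdl.{v}, (ℕ → m.N) → m.N} (hpr : UF fun m v => pr m (v 0) fun i => v (i + 1))
    (ht : UF t) : UD fun m v => Cl (fun x => pr m x v) (t m v) := by
  unfold Cl
  refine ud_all (ud_imp (ud_mem (uf_var 0) ht.wk) (ud_sub ?_ ht.wk))
  exact hpr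

@[simp] theorem uf_clo {pr : ∀ m : Mdl.{v}, m.N → (ℕ → m.N) → m.N}
    {x : ∀ m : Mdl.{v}, (ℕ → m.N) → m.N} (hpr : UF fun m v => pr m (v 0) fun i => v (i + 1))
    (hx : UF x) : UF fun m v => clo (fun y => pr m y v) (x m v) := by
  unfold clo
  refine uf_the (R := fun m s v => ∀ z, z ∈ s ↔ ∀ t, Cl (fun y => pr m y v) t → x m v ∈ t → z ∈ t)
    (ud_all (ud_iff (ud_mem (uf_var 0) (uf_var 1)) (ud_all (ud_imp ?_ (ud_imp
      (ud_mem hx.wk.wk.wk (uf_var 0)) (ud_mem (uf_var 1) (uf_var 0)))))))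
  refine ud_cl (pr := fun m y v => pr m y fun i => v (i + 3)) ?_ (uf_var 0)
  exact (uf_ren (fun i => match i with | 0 => 0 | n + 1 => n + 4) hpr).congr fun m v => rfl

theorem ud_att {pr : ∀ m : Mdl.{v}, m.N → (ℕ → m.N) → m.N}
    {G : ∀ m : Mdl.{v}, m.N → m.N → (ℕ → m.N) → m.N} {f t : ∀ m : Mdl.{v}, (ℕ → m.N) → m.N}
    (hpr : UF fun m v => pr m (v 0) fun i => v (i + 1))
    (hG : UF fun m v => G m (v 0) (v 1) fun i => v (i + 2)) (hf : UF f) (ht : UF t) :
    UD fun m v => Att (fun x => pr m x v) (fun x y => G m x y v) (f m v) (t m v) := by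
  unfold Att
  refine ud_and (ud_isF hf ht) (ud_all (ud_imp (ud_mem (uf_var 0) ht.wk)
    (ud_eq (uf_ap hf.wk (uf_var 0)) ?_)))
  refine (uf_subst (w := fun i m v => match i with
    | 0 => v 0
    | 1 => res (f m fun i => v (i + 1)) (pr m (v 0) fun i => v (i + 1))
    | n + 2 => v (n + 1)) hG ?_).congr fun m v => rfl
  intro i
  rcases i with _ | _ | n
  · exact uf_var 0
  · exact uf_res hf.wk hpr
  · exact uf_var (n + 1)

@[simp] theorem uf_wrec {pr : ∀ m : Mdl.{v}, m.N → (ℕ → m.N) → m.N}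
    {G : ∀ m : Mdl.{v}, m.N → m.N → (ℕ → m.N) → m.N} {x : ∀ m : Mdl.{v}, (ℕ → m.N) → m.N}
    (hpr : UF fun m v => pr m (v 0) fun i => v (i + 1))
    (hG : UF fun m v => G m (v 0) (v 1) fun i => v (i + 2)) (hx : UF x) :
    UF fun m v => WRec (fun x => pr m x v) (fun x y => G m x y v) (x m v) := by
  unfold WRec
  refine uf_ap (uf_the (R := fun m f v => Att (fun x => pr m x v) (fun x y => G m x y v) f
    (clo (fun y => pr m y v) (x m v))) ?_) hx
  refine ud_att (pr := fun m y v => pr m y fun i => v (i + 1))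
    (G := fun m x y v => G m x y fun i => v (i + 1)) ?_ ?_ (uf_var 0) ?_
  · exact (uf_ren (fun i => match i with | 0 => 0 | n + 1 => n + 2) hpr).congr fun m v => rfl
  · exact (uf_ren (fun i => match i with | 0 => 0 | 1 => 1 | n + 2 => n + 3) hG).congr
      fun m v => rfl
  · exact (uf_clo hpr hx).wk

@[simp] theorem uf_rec {G : ∀ m : Mdl.{v}, m.N → m.N → (ℕ → m.N) → m.N}
    {x : ∀ m : Mdl.{v}, (ℕ → m.N) → m.N}
    (hG : UF fun m v => G m (v 0) (v 1) fun i => v (i + 2)) (hx : UF x) :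
    UF fun m v => Rec (fun x y => G m x y v) (x m v) :=
  uf_wrec (pr := fun _ x _ => x) (uf_var 0) hG hx

@[simp] theorem uf_tcs {x : ∀ m : Mdl.{v}, (ℕ → m.N) → m.N} (hx : UF x) :
    UF fun m v => tcs (x m v) := uf_clo (pr := fun _ x _ => x) (uf_var 0) hx

@[simp] theorem ud_tr {t : ∀ m : Mdl.{v}, (ℕ → m.N) → m.N} (ht : UF t) :
    UD fun m v => Tr (t m v) :=
  ud1 (P := fun m => Tr (N := m.N)) (by unfold Tr; simp (maxDischargeDepth := 99)) ht

@[simp] theorem ud_ord {t : ∀ m : Mdl.{v}, (ℕ → m.N) → m.N} (ht : UF t) :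
    UD fun m v => ZU.Ord (t m v) :=
  ud1 (P := fun m => ZU.Ord (N := m.N)) (by unfold ZU.Ord; simp (maxDischargeDepth := 99)) ht

@[simp] theorem uf_lst {R : ∀ m : Mdl.{v}, m.N → (ℕ → m.N) → Prop}
    (h : UD fun m v => R m (v 0) fun i => v (i + 1)) : UF fun m v => lst fun z => R m z v := by
  refine uf_the (R := fun m z v => ZU.Ord z ∧ R m z v ∧ ∀ y, y ∈ z → ¬ R m y v) (ud_and
    (ud_ord (uf_var 0)) (ud_and h (ud_all (ud_imp (ud_mem (uf_var 0) (uf_var 1))
      (ud_not ?_)))))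
  exact ud_wk1 h

/-! ### Natural numbers -/

@[simp] theorem uf_sc {s : ∀ m : Mdl.{v}, (ℕ → m.N) → m.N} (hs : UF s) :
    UF fun m v => sc (s m v) := uf_cup hs (uf_sg hs)

@[simp] theorem ud_ind {t : ∀ m : Mdl.{v}, (ℕ → m.N) → m.N} (ht : UF t) :
    UD fun m v => Ind (t m v) :=
  ud1 (P := fun m => Ind (N := m.N)) (by unfold Ind; simp (maxDischargeDepth := 99)) ht

@[simp] theorem uf_om : UF.{v} fun m _ => (om : m.N) := by
  unfold om
  simp (maxDischargeDepth := 99)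

@[simp] theorem uf_nt (n : ℕ) : UF.{v} fun m _ => (nt n : m.N) := by
  induction n with
  | zero => exact uf_em
  | succ n ih => exact uf_sc ih

@[simp] theorem uf_itr {F : ∀ m : Mdl.{v}, m.N → m.N → (ℕ → m.N) → m.N}
    {a x : ∀ m : Mdl.{v}, (ℕ → m.N) → m.N}
    (hF : UF fun m v => F m (v 0) (v 1) fun i => v (i + 2)) (ha : UF a) (hx : UF x) :
    UF fun m v => itr (fun x y => F m x y v) (a m v) (x m v) := by
  unfold itr
  refine uf_rec (G := fun m x f v => ife (x = ∅) (a m v) (F m (uni x) (ap f (uni x)) v)) ?_ hx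
  refine uf_ife (ud_eq (uf_var 0) uf_em) ha.wk.wk ?_
  refine (uf_subst (w := fun i m v => match i with
    | 0 => uni (v 0)
    | 1 => ap (v 1) (uni (v 0))
    | n + 2 => v (n + 2)) hF ?_).congr fun m v => rfl
  intro i
  rcases i with _ | _ | n
  · exact uf_uni (uf_var 0)
  · exact uf_ap (uf_var 1) (uf_uni (uf_var 0))
  · exact uf_var (n + 2)

@[simp] theorem ud_ctb {t : ∀ m : Mdl.{v}, (ℕ → m.N) → m.N} (ht : UF t) :
    UD fun m v => Ctb (t m v) :=
  ud1 (P := fun m => Ctb (N := m.N)) (by unfold Ctb; simp (maxDischargeDepth := 99)) ht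

@[simp] theorem uf_VV {s : ∀ m : Mdl.{v}, (ℕ → m.N) → m.N} (hs : UF s) :
    UF fun m v => VV (s m v) :=
  uf1 (F := fun m => VV (N := m.N)) (by
    unfold VV
    refine uf_rec (G := fun m x f _ => bU x fun y => pw (ap f y)) ?_ (uf_var 0)
    simp (maxDischargeDepth := 99)) hs

end ZL
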