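import Pool.Agent.ZU.Rec

/-! # ZL: uniform definability without parameters

(library ZL on top of ZU; no sorry in this file)

`Mdl` is the type of all well-founded models of ZF. A predicate `P m v` (`m : Mdl`, `v : ℕ → m.N`) is
`UD P` if ONE first order formula (without parameters) defines it in all models; a function `t m v` is
`UF t` if its graph is `UD`. The rules have the same form as those of `ZU` (so `simp` can use them). -/

universe v

namespace ZL

open STP STP.Fml ZU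

/-- a well-founded model of ZF -/
structure Mdl : Type (v + 1) where
  N : Type v
  inst : ZM N

instance (m : Mdl.{v}) : ZM m.N := m.inst

/-- `P` is defined by the same formula in all models -/
def UD (P : ∀ m : Mdl.{v}, (ℕ → m.N) → Prop) : Prop :=
  ∃ φ : Fml, ∀ (m : Mdl.{v}) (v : ℕ → m.N), P m v ↔ sat ZM.E φ v

/-- the graph of `t` is defined by the same formula in all models -/
def UF (t : ∀ m : Mdl.{v}, (ℕ → m.N) → m.N) : Prop := UD fun m v => v 0 = t m fun i => v (i + 1)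

theorem UD.congr {P Q : ∀ m : Mdl.{v}, (ℕ → m.N) → Prop} (h : UD P) (hQ : ∀ m v, Q m v ↔ P m v) :
    UD Q := by
  have : Q = P := funext fun m => funext fun v => propext (hQ m v)
  rwa [this]

theorem UF.congr {t s : ∀ m : Mdl.{v}, (ℕ → m.N) → m.N} (h : UF t) (hs : ∀ m v, s m v = t m v) :
    UF s := by
  have : s = t := funext fun m => funext fun v => hs m v
  rwa [this]

@[simp] theorem ud_imp {P Q : ∀ m : Mdl.{v}, (ℕ → m.N) → Prop} (hP : UD P) (hQ : UD Q) :
    UD fun m v => P m v → Q m v := by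
  obtain ⟨φ, h⟩ := hP
  obtain ⟨ψ, h'⟩ := hQ
  refine ⟨.imp φ ψ, fun m v => ?_⟩
  beta_reduce
  rw [sat_imp, h, h']

@[simp] theorem ud_const (p : Prop) : UD.{v} fun _ _ => p := by
  by_cases h : p
  · exact ⟨.imp .bot .bot, fun m v => by simp [h]⟩
  · exact ⟨.bot, fun m v => by simp [h]⟩

@[simp] theorem ud_not {P : ∀ m : Mdl.{v}, (ℕ → m.N) → Prop} (hP : UD P) :
    UD fun m v => ¬ P m v := by
  obtain ⟨φ, h⟩ := hP
  exact ⟨φ.no, fun m v => by beta_reduce; rw [sat_no, h]⟩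

@[simp] theorem ud_or {P Q : ∀ m : Mdl.{v}, (ℕ → m.N) → Prop} (hP : UD P) (hQ : UD Q) :
    UD fun m v => P m v ∨ Q m v :=
  (ud_imp (ud_not hP) hQ).congr fun m v => by tauto

@[simp] theorem ud_and {P Q : ∀ m : Mdl.{v}, (ℕ → m.N) → Prop} (hP : UD P) (hQ : UD Q) :
    UD fun m v => P m v ∧ Q m v :=
  (ud_not (ud_imp hP (ud_not hQ))).congr fun m v => by tauto

@[simp] theorem ud_iff {P Q : ∀ m : Mdl.{v}, (ℕ → m.N) → Prop} (hP : UD P) (hQ : UD Q) :
    UD fun m v => P m v ↔ Q m v :=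
  (ud_and (ud_imp hP hQ) (ud_imp hQ hP)).congr fun m v => by tauto

@[simp] theorem ud_all {R : ∀ m : Mdl.{v}, m.N → (ℕ → m.N) → Prop}
    (h : UD fun m v => R m (v 0) fun i => v (i + 1)) : UD fun m v => ∀ x : m.N, R m x v := by
  obtain ⟨φ, h⟩ := h
  refine ⟨.all φ, fun m v => ?_⟩
  rw [sat_all]
  refine forall_congr' fun x => ?_
  rw [← h]
  rfl

@[simp] theorem ud_ex {R : ∀ m : Mdl.{v}, m.N → (ℕ → m.N) → Prop}
    (h : UD fun m v => R m (v 0) fun i => v (i + 1)) : UD fun m v => ∃ x : m.N, R m x v :=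
  (ud_not (ud_all (R := fun m x v => ¬ R m x v) (ud_not h))).congr fun m v => by push Not; rfl

theorem ud_ren {P : ∀ m : Mdl.{v}, (ℕ → m.N) → Prop} (r : ℕ → ℕ) (h : UD P) :
    UD fun m v => P m fun i => v (r i) := by
  obtain ⟨φ, h⟩ := h
  refine ⟨CPI.ren r φ, fun m v => ?_⟩
  beta_reduce
  rw [CPI.sat_ren, h]
  rfl

theorem uf_ren {t : ∀ m : Mdl.{v}, (ℕ → m.N) → m.N} (r : ℕ → ℕ) (h : UF t) :
    UF fun m v => t m fun i => v (r i) :=
  (ud_ren (fun i => match i with | 0 => 0 | n + 1 => r n + 1) h).congr fun m v => Iff.rfl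

/-- weakening -/
theorem UD.wk {P : ∀ m : Mdl.{v}, (ℕ → m.N) → Prop} (h : UD P) :
    UD fun m v => P m fun i => v (i + 1) := ud_ren (fun i => i + 1) h

/-- weakening -/
theorem UF.wk {t : ∀ m : Mdl.{v}, (ℕ → m.N) → m.N} (h : UF t) :
    UF fun m v => t m fun i => v (i + 1) := uf_ren (fun i => i + 1) h

theorem ud_mem_var (i j : ℕ) : UD.{v} fun _ v => v i ∈ v j :=
  ⟨.mem i j, fun m v => by rw [sat_mem]; rfl⟩

theorem ud_eq_var (i j : ℕ) : UD.{v} fun _ v => v i = v j :=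
  ⟨.eq i j, fun m v => by rw [sat_eq]⟩

@[simp] theorem uf_var (i : ℕ) : UF.{v} fun _ v => v i := ud_eq_var 0 (i + 1)

@[simp] theorem ud_eq {s t : ∀ m : Mdl.{v}, (ℕ → m.N) → m.N} (hs : UF s) (ht : UF t) :
    UD fun m v => s m v = t m v :=
  (ud_ex (R := fun m x v => x = s m v ∧ x = t m v) (ud_and hs ht)).congr fun m v =>
    ⟨fun h => ⟨s m v, rfl, h⟩, fun ⟨_, h1, h2⟩ => h1.symm.trans h2⟩

@[simp] theorem ud_mem {s t : ∀ m : Mdl.{v}, (ℕ → m.N) → m.N} (hs : UF s) (ht : UF t) :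
    UD fun m v => s m v ∈ t m v :=
  (ud_ex (R := fun m x v => x = s m v ∧ ∃ y, y = t m v ∧ x ∈ y) (ud_and hs
    (ud_ex (R := fun m y v => y = t m (fun i => v (i + 1)) ∧ v 0 ∈ y)
      (ud_and (uf_ren (fun i => i + 1) ht) (ud_mem_var 1 0))))).congr fun m v =>
    ⟨fun h => ⟨s m v, rfl, t m v, rfl, h⟩,
      fun ⟨_, h1, _, h2, h3⟩ => by rw [← h1, ← h2]; exact h3⟩

@[simp] theorem ud_sub {s t : ∀ m : Mdl.{v}, (ℕ → m.N) → m.N} (hs : UF s) (ht : UF t) :
    UD fun m v => s m v ⊆ t m v :=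
  ud_all (R := fun m z v => z ∈ s m v → z ∈ t m v)
    (ud_imp (ud_mem (uf_var 0) hs.wk) (ud_mem (uf_var 0) ht.wk))

/-- a formula whose variables are replaced by definable functions -/
theorem ud_sat (φ : Fml) : ∀ w : ℕ → ∀ m : Mdl.{v}, (ℕ → m.N) → m.N, (∀ i, UF (w i)) →
    UD fun m v => sat ZM.E φ fun i => w i m v := by
  induction φ with
  | mem i j => exact fun w hw => ud_mem (hw i) (hw j)
  | eq i j => exact fun w hw => ud_eq (hw i) (hw j)
  | bot => exact fun w hw => ud_const False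
  | imp φ ψ h1 h2 => exact fun w hw => ud_imp (h1 w hw) (h2 w hw)
  | all φ h1 =>
    intro w hw
    refine (ud_all (R := fun m x v => sat ZM.E φ (cns x fun i => w i m v)) ?_).congr
      fun m v => Iff.rfl
    refine (h1 (fun i m v => match i with | 0 => v 0 | n + 1 => w n m fun j => v (j + 1)) ?_).congr
      fun m v => ?_
    · intro i
      cases i with
      | zero => exact uf_var 0
      | succ n => exact (hw n).wk
    · have : (cns (v 0) fun i => w i m fun j => v (j + 1)) = fun i => (match i with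
          | 0 => v 0 | n + 1 => w n m fun j => v (j + 1) : m.N) := by
        funext i
        cases i <;> rfl
      rw [this]

/-- **Substitution** of definable functions for all variables -/
theorem ud_subst {P : ∀ m : Mdl.{v}, (ℕ → m.N) → Prop} (h : UD P)
    {w : ℕ → ∀ m : Mdl.{v}, (ℕ → m.N) → m.N} (hw : ∀ i, UF (w i)) :
    UD fun m v => P m fun i => w i m v := by
  obtain ⟨φ, h⟩ := h
  exact (ud_sat φ w hw).congr fun m v => h m _

theorem uf_subst {t : ∀ m : Mdl.{v}, (ℕ → m.N) → m.N} (h : UF t)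
    {w : ℕ → ∀ m : Mdl.{v}, (ℕ → m.N) → m.N} (hw : ∀ i, UF (w i)) :
    UF fun m v => t m fun i => w i m v := by
  refine (ud_subst (w := fun i m v => match i with | 0 => v 0 | n + 1 => w n m fun j => v (j + 1))
    h ?_).congr fun m v => Iff.rfl
  intro i
  cases i with
  | zero => exact uf_var 0
  | succ n => exact (hw n).wk

theorem ud1 {P : ∀ m : Mdl.{v}, m.N → Prop} (h : UD fun m v => P m (v 0))
    {s : ∀ m : Mdl.{v}, (ℕ → m.N) → m.N} (hs : UF s) : UD fun m v => P m (s m v) :=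
  ud_subst (w := fun _ => s) h fun _ => hs

theorem uf1 {F : ∀ m : Mdl.{v}, m.N → m.N} (h : UF fun m v => F m (v 0))
    {s : ∀ m : Mdl.{v}, (ℕ → m.N) → m.N} (hs : UF s) : UF fun m v => F m (s m v) :=
  uf_subst (w := fun _ => s) h fun _ => hs

/-- lists of definable functions as substitutions -/
def sb (l : List (∀ m : Mdl.{v}, (ℕ → m.N) → m.N)) : ℕ → ∀ m : Mdl.{v}, (ℕ → m.N) → m.N :=
  fun i => l.getD i fun _ v => v 0

theorem sb_uf {l : List (∀ m : Mdl.{v}, (ℕ → m.N) → m.N)} (h : ∀ t ∈ l, UF t) (i : ℕ) :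
    UF (sb l i) := by
  unfold sb
  rw [List.getD_eq_getElem?_getD]
  rcases hl : l[i]? with _ | t
  · exact uf_var 0
  · exact h t (List.mem_of_getElem? hl)

theorem ud2 {P : ∀ m : Mdl.{v}, m.N → m.N → Prop} (h : UD fun m v => P m (v 0) (v 1))
    {s t : ∀ m : Mdl.{v}, (ℕ → m.N) → m.N} (hs : UF s) (ht : UF t) :
    UD fun m v => P m (s m v) (t m v) :=
  ud_subst (w := sb [s, t]) h (sb_uf (by simp [hs, ht]))

theorem uf2 {F : ∀ m : Mdl.{v}, m.N → m.N → m.N} (h : UF fun m v => F m (v 0) (v 1))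
    {s t : ∀ m : Mdl.{v}, (ℕ → m.N) → m.N} (hs : UF s) (ht : UF t) :
    UF fun m v => F m (s m v) (t m v) :=
  uf_subst (w := sb [s, t]) h (sb_uf (by simp [hs, ht]))

theorem ud3 {P : ∀ m : Mdl.{v}, m.N → m.N → m.N → Prop} (h : UD fun m v => P m (v 0) (v 1) (v 2))
    {s t r : ∀ m : Mdl.{v}, (ℕ → m.N) → m.N} (hs : UF s) (ht : UF t) (hr : UF r) :
    UD fun m v => P m (s m v) (t m v) (r m v) :=
  ud_subst (w := sb [s, t, r]) h (sb_uf (by simp [hs, ht, hr]))

theorem uf3 {F : ∀ m : Mdl.{v}, m.N → m.N → m.N → m.N}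
    (h : UF fun m v => F m (v 0) (v 1) (v 2)) {s t r : ∀ m : Mdl.{v}, (ℕ → m.N) → m.N} (hs : UF s)
    (ht : UF t) (hr : UF r) : UF fun m v => F m (s m v) (t m v) (r m v) :=
  uf_subst (w := sb [s, t, r]) h (sb_uf (by simp [hs, ht, hr]))

theorem ud4 {P : ∀ m : Mdl.{v}, m.N → m.N → m.N → m.N → Prop}
    (h : UD fun m v => P m (v 0) (v 1) (v 2) (v 3))
    {s t r q : ∀ m : Mdl.{v}, (ℕ → m.N) → m.N} (hs : UF s) (ht : UF t) (hr : UF r) (hq : UF q) :
    UD fun m v => P m (s m v) (t m v) (r m v) (q m v) :=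
  ud_subst (w := sb [s, t, r, q]) h (sb_uf (by simp [hs, ht, hr, hq]))

theorem uf4 {F : ∀ m : Mdl.{v}, m.N → m.N → m.N → m.N → m.N}
    (h : UF fun m v => F m (v 0) (v 1) (v 2) (v 3))
    {s t r q : ∀ m : Mdl.{v}, (ℕ → m.N) → m.N} (hs : UF s) (ht : UF t) (hr : UF r) (hq : UF q) :
    UF fun m v => F m (s m v) (t m v) (r m v) (q m v) :=
  uf_subst (w := sb [s, t, r, q]) h (sb_uf (by simp [hs, ht, hr, hq]))

theorem ud5 {P : ∀ m : Mdl.{v}, m.N → m.N → m.N → m.N → m.N → Prop}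
    (h : UD fun m v => P m (v 0) (v 1) (v 2) (v 3) (v 4))
    {s t r q p : ∀ m : Mdl.{v}, (ℕ → m.N) → m.N} (hs : UF s) (ht : UF t) (hr : UF r) (hq : UF q)
    (hp : UF p) : UD fun m v => P m (s m v) (t m v) (r m v) (q m v) (p m v) :=
  ud_subst (w := sb [s, t, r, q, p]) h (sb_uf (by simp [hs, ht, hr, hq, hp]))

theorem uf5 {F : ∀ m : Mdl.{v}, m.N → m.N → m.N → m.N → m.N → m.N}
    (h : UF fun m v => F m (v 0) (v 1) (v 2) (v 3) (v 4))
    {s t r q p : ∀ m : Mdl.{v}, (ℕ → m.N) → m.N} (hs : UF s) (ht : UF t) (hr : UF r) (hq : UF q)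
    (hp : UF p) : UF fun m v => F m (s m v) (t m v) (r m v) (q m v) (p m v) :=
  uf_subst (w := sb [s, t, r, q, p]) h (sb_uf (by simp [hs, ht, hr, hq, hp]))

/-! ### Tests -/

example : UD.{v} fun m v => ∃ x : m.N, x ∈ v 1 ∧ ∀ y, y ∈ x → y = v 2 ∨ ¬ y ∈ v 3 := by
  simp (maxDischargeDepth := 99)

/-! ### From uniform definability to definability in one model -/

/-- a uniformly definable predicate is definable in each model -/
theorem UD.dfn {P : ∀ m : Mdl.{v}, (ℕ → m.N) → Prop} (h : UD P) (m : Mdl.{v}) :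
    Dfn (N := m.N) fun v => P m v := by
  obtain ⟨φ, h⟩ := h
  exact (dfn_sat (N := m.N) φ (fun i v => v i) fun i => df_var i).congr fun v => h m v

theorem UF.df {t : ∀ m : Mdl.{v}, (ℕ → m.N) → m.N} (h : UF t) (m : Mdl.{v}) :
    DF (N := m.N) fun v => t m v := UD.dfn h m

end ZL
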